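import Pool.Agent.E870.P.FinalAJ

/-!
# A Bloch–Beilinson filtration exists if and only if `End(h^d(X))` acts faithfully on `H^d(X)` and
the Abel–Jacobi map is injective on `CH^i(h^(2i-1)(X))`, `dim X = 2i - 1`

Let `P` be a class of varieties which is closed under products, contains all curves, and whose
members satisfy the Lefschetz standard conjecture. We show that there is a Bloch–Beilinson filtration
on the Chow groups of the varieties in `P` in the sense of the conditions 1 to 4 of the problem, with
`F^2` the kernel of the Abel–Jacobi maps, if and only if for all `X` in `P`

* `X` has a Chow–Künneth decomposition,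
* for all Chow–Künneth decompositions the endomorphism ring of the motive `h^d(X)`, `d = dim X`,
  acts faithfully on the middle cohomology group `H^d(X)`,
* if `dim X = 2i - 1`, the Abel–Jacobi map is injective on `CH^i(h^(2i-1)(X))`.

So the vanishing of `CH^i(h^b(X))` for `b > 2i` and for `b < i` comes for free, and all other
statements are needed for the middle cohomology only.

Proof. Let `F` be a filtration as in the conditions. The Lefschetz standard conjecture gives
correspondences `p_j` which act on cohomology as the Künneth projectors. A homologically trivial
`γ` in `CH^d(X × X)` maps `F^ν CH^d(X × X)` to `F^(ν+1)` by composition, so it is nilpotent, and the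
Künneth projectors lift to a Chow–Künneth decomposition. A homologically trivial `γ` with
`π_d γ π_d = γ` lies in all `F^ν CH^d(X × X)`, so it is `0`; similarly for a class in
`CH^i(h^(2i-1)(X))` in the kernel of the Abel–Jacobi map.

Conversely the faithfulness implies that the homologically trivial classes in `CH^i(h^(2i)(X))`
vanish, first for `dim X = 2i`, and then for all `X` by multiplication with the class `1` or with a
point of a curve; this gives the faithfulness of `End(h^b(X))` on `H^b(X)` for all `b`. Let `a` be a
class in `CH^i(h^b(X))`, `b > 2i`, and let `z` be a class of degree zero on a curve `E`. Then `a × z`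
lies in `CH^(i+1)(h^(b+1)(X × E))`: the excess `b - 2i` drops by one, and by induction `a × z = 0`
for all `E` and `z`. This implies `a = 0` (the peeling lemma, `Pool.Agent.E870.P.peel`): let
`f : V ⟶ S` be a degenerating family of curves with the relative class `θ` of degree zero, for
example `θ = (p) - (o)` on the family of curves `E_b`, `p ∈ E_b`, for a rational elliptic surface.
Then `a × θ` vanishes on the fibres of `f`, so it is supported over curves `T` in `S` by the principle
of Bloch and Srinivas. Intersecting with the class `τ = θ · [fibre over 0]` one finds
`deg(θ · τ) a = 0`, because `τ` vanishes over each curve `T`: there it is a cycle of degree zero on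
connected unions of rational curves. By the Lefschetz standard conjecture and the faithfulness
the identity of `h^b(X)` factors through a Tate twist of `h^(2d-b)(X)` by means of the
multiplication by a power of a divisor, so `CH^i(h^b(X)) = 0` for `i > b`. The remaining conditions
follow from the theory of Chow–Künneth decompositions.
-/

open Pool.Agent.H914 Pool.Agent.R903 Pool.Agent.E870.Q

universe u v w

namespace Pool.Agent.Results.MP_08891c_ag.FaithfulAndAbelJacobi

/-- **For a class of varieties which satisfy the Lefschetz standard conjecture, a Bloch–Beilinson
filtration with `F^2` the kernel of the Abel–Jacobi maps exists if and only if the varieties have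
Chow–Künneth decompositions, the endomorphisms of `h^d(X)` act faithfully on `H^d(X)`, `d = dim X`,
and the Abel–Jacobi map is injective on `CH^i(h^(2i-1)(X))` for `dim X = 2i - 1`.** -/
theorem result {k : Type u} [Field k] {𝒱 : VarClass k} {C : ChowTheory.{u, v} 𝒱}
    (W : WeilTheory.{u, v, w} C) (hC : IsGeometric C.toChowData)
    {K : ∀ X : 𝒱.Obj, ℕ → Submodule ℚ (C.CH X)} (hK : IsAbelJacobiKernel W K)
    {P : 𝒱.Obj → Prop} (hP : IsClosedClass P) (hL : ∀ X, P X → LefschetzStd W X) :
    (∃ F, IsBlochBeilinsonAJ W K P F) ↔
      ∀ X, P X → HasDecomposition W X ∧ FaithfulMid W X ∧ AbelJacobiInjMid W K X :=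
  Pool.Agent.E870.P.q_existsAJ_iff hC hK hP hL

end Pool.Agent.Results.MP_08891c_ag.FaithfulAndAbelJacobi
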