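import Pool.Agent.H934.BB.Main

/-!
# Bloch-Beilinson filtrations exist if they exist for each variety separately

The problem asks for a system of filtrations on the Chow groups of all smooth projective varieties which
is compatible with all correspondences between all varieties. We prove, without assuming any of the
standard conjectures (in particular without the Künneth standard conjecture, which enters in all known
results on the uniqueness of the filtration), that the existence is a question on single varieties.

Let `S` be a class of varieties such that every variety is dominated by one in `S` (for example all
varieties, or the varieties of general type). The following are equivalent.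

1. There is a Bloch-Beilinson filtration, that is, a system of filtrations on the Chow groups of all
   varieties with the properties 1 - 4.
2. For every single variety `X` in `S` there is a filtration on the Chow groups `CH^j(X)` with the
   properties 1 - 4 for the correspondences from `X` to itself only. (The filtrations for different
   varieties need not be related in any way.)
3. For every single variety `X` in `S`: `CH^0(X)_hom = 0`, and if `w ∈ CH^(j_2)(X)` is in the kernel of
   the Abel-Jacobi map and `Γ_i`, `i = 2, …, j`, are correspondences from `X` to itself such that `Γ_i`
   is zero on `H^(2 j_i - i)(X)`, where `j_i` is the codimension of `Γ_(i-1)_* ⋯ Γ_2_* w`, and the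
   codimension of `Γ_j_* ⋯ Γ_2_* w` is `j`, then `Γ_j_* ⋯ Γ_2_* w = 0`.

So the existential quantifier over the systems of filtrations can be removed from the conjecture, and a
disproof, if there is one, can always be given by one chain of correspondences on one variety.

Proof. Conditions 3 and 4 generate a smallest filtration with the given steps `F^0`, `F^1`, `F^2`, and
the conjecture is that its step `F^(j+1) CH^j` is zero. Every element of this step is obtained by finitely
many operations which involve finitely many varieties. These are all factors of one variety `Z` in `S`
(products and dominating varieties), and by conjugating with the inclusions and projections the element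
becomes a sum of chains on `Z` (`exists_bound`).
-/

set_option autoImplicit false

open CategoryTheory AlgebraicGeometry

universe u v

namespace Pool.Agent.Results.MP_08891c_ag.OneVarietyAtATime

open Pool.Agent.H914 Pool.Agent.H934.BB

/-- **A Bloch-Beilinson filtration exists if and only if it exists for each variety separately, if and
only if there are no obstructions on single varieties.** -/
theorem result {k : Type u} [Field k] {𝒱 : VarClass k} {D : ChowData.{u, v} 𝒱} (hD : IsChow D)
    {M : AbelJacobi D} (hM : IsAbelJacobi M) (S : Set 𝒱.Obj) (hS : ∀ X, ∃ Z ∈ S, Dominates D Z X) :
    List.TFAE [∃ F, IsBB M Set.univ F, ∀ X ∈ S, ∃ F, IsBB M {X} F, ∀ X ∈ S, NoObstruction M X] :=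
  bb_tfae hD hM S hS

end Pool.Agent.Results.MP_08891c_ag.OneVarietyAtATime
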